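import Mathlib

set_option autoImplicit false
open MeasureTheory Matrix

namespace Pool.Agent.Results.MP_b8a264_an.NotDense

/-- A Brascamp-Lieb datum: surjective linear maps `ℝ^d → ℝ^{n i}` given by matrices, and positive
exponents. -/
def IsDatum {k d : ℕ} {n : Fin k → ℕ} (B : ∀ i, Matrix (Fin (n i)) (Fin d) ℝ)
    (c : Fin k → ℝ) : Prop :=
  (∀ i, Function.Surjective (B i).mulVec) ∧ ∀ i, 0 < c i

/-- The Brascamp-Lieb inequality with constant `C`, for all nonnegative integrable inputs. -/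
def BLInequality {k d : ℕ} {n : Fin k → ℕ} (B : ∀ i, Matrix (Fin (n i)) (Fin d) ℝ)
    (c : Fin k → ℝ) (C : ℝ) : Prop :=
  ∀ f : ∀ i, (Fin (n i) → ℝ) → ℝ, (∀ i, Integrable (f i)) → (∀ i y, 0 ≤ f i y) →
    ∫⁻ x : Fin d → ℝ, ENNReal.ofReal (∏ i, (f i ((B i).mulVec x)) ^ (c i))
      ≤ ENNReal.ofReal (C * ∏ i, (∫ y, f i y) ^ (c i))

/-- A feasible datum: the Brascamp-Lieb constant is finite. -/
def Feasible {k d : ℕ} {n : Fin k → ℕ} (B : ∀ i, Matrix (Fin (n i)) (Fin d) ℝ)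
    (c : Fin k → ℝ) : Prop :=
  IsDatum B c ∧ ∃ C : ℝ, BLInequality B c C

/-- The gaussian quotient whose supremum over positive definite tuples is the gaussian constant. -/
noncomputable def gaussQuotient {k d : ℕ} {n : Fin k → ℕ}
    (B : ∀ i, Matrix (Fin (n i)) (Fin d) ℝ) (c : Fin k → ℝ)
    (A : ∀ i, Matrix (Fin (n i)) (Fin (n i)) ℝ) : ℝ :=
  Real.sqrt ((∏ i, (A i).det ^ (c i)) / (∑ i, c i • ((B i)ᵀ * A i * B i)).det)

/-- Gaussian extremizable: the supremum of the gaussian quotient over tuples of positive definite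
matrices is finite and attained, i.e. there is a maximizing tuple. (The determinant in the
denominator is required to be positive at the maximizer: it vanishes either for no positive definite
tuple or, when the maps have a common kernel, for all of them, the supremum then being infinite.) -/
def GaussExtremizable {k d : ℕ} {n : Fin k → ℕ} (B : ∀ i, Matrix (Fin (n i)) (Fin d) ℝ)
    (c : Fin k → ℝ) : Prop :=
  ∃ A : ∀ i, Matrix (Fin (n i)) (Fin (n i)) ℝ, (∀ i, (A i).PosDef) ∧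
    0 < (∑ i, c i • ((B i)ᵀ * A i * B i)).det ∧
    ∀ A' : ∀ i, Matrix (Fin (n i)) (Fin (n i)) ℝ, (∀ i, (A' i).PosDef) →
      gaussQuotient B c A' ≤ gaussQuotient B c A

/-! ### Linear algebra -/

/-- kernel direction of a `2 × 3` matrix -/
def ker3 (M : Matrix (Fin 2) (Fin 3) ℝ) : Fin 3 → ℝ :=
  ![M 0 1 * M 1 2 - M 0 2 * M 1 1, M 0 2 * M 1 0 - M 0 0 * M 1 2, M 0 0 * M 1 1 - M 0 1 * M 1 0]

/-- normal to the plane spanned by two kernel directions -/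
def nrm (M₁ M₂ : Matrix (Fin 2) (Fin 3) ℝ) : Fin 3 → ℝ :=
  ![ker3 M₁ 1 * ker3 M₂ 2 - ker3 M₁ 2 * ker3 M₂ 1,
    ker3 M₁ 2 * ker3 M₂ 0 - ker3 M₁ 0 * ker3 M₂ 2,
    ker3 M₁ 0 * ker3 M₂ 1 - ker3 M₁ 1 * ker3 M₂ 0]

/-- a vector orthogonal to `M (ker3 M')` -/
def q (M M' : Matrix (Fin 2) (Fin 3) ℝ) : Fin 2 → ℝ :=
  ![-(M.mulVec (ker3 M') 1), M.mulVec (ker3 M') 0]

theorem tr_q (M M' : Matrix (Fin 2) (Fin 3) ℝ) : Mᵀ.mulVec (q M M') = nrm M M' := by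
  ext i
  fin_cases i <;>
  simp [q, nrm, ker3, mulVec, dotProduct, Fin.sum_univ_succ] <;> ring

theorem nrm_swap (M M' : Matrix (Fin 2) (Fin 3) ℝ) : nrm M' M = - nrm M M' := by
  ext i
  fin_cases i <;>
  simp [nrm] <;> ring

theorem det_qq (M M' : Matrix (Fin 2) (Fin 3) ℝ) (t : ℝ) (ht : t ≠ 0) :
    (t⁻¹ • (1 : Matrix (Fin 2) (Fin 2) ℝ) + t • vecMulVec (q M M') (q M M')).det
      = t⁻¹ ^ 2 + (q M M' 0 ^ 2 + q M M' 1 ^ 2) := by
  rw [Matrix.det_fin_two]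
  simp [vecMulVec_apply]
  field_simp
  ring

theorem posDef_qq (v : Fin 2 → ℝ) (t : ℝ) (ht : 0 < t) :
    (t⁻¹ • (1 : Matrix (Fin 2) (Fin 2) ℝ) + t • vecMulVec v v).PosDef := by
  have h1 : (t⁻¹ • (1 : Matrix (Fin 2) (Fin 2) ℝ)).PosDef :=
    Matrix.PosDef.smul Matrix.PosDef.one (inv_pos.mpr ht)
  have h2 : (t • vecMulVec v v).PosSemidef := by
    have := Matrix.posSemidef_vecMulVec_self_star v
    simp only [star_trivial] at this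
    exact this.smul ht.le
  exact h1.add_posSemidef h2

/-- rank one update of a `3 × 3` determinant, along a quadratic form -/
noncomputable def kap (G : Matrix (Fin 3) (Fin 3) ℝ) (v : Fin 3 → ℝ) : ℝ :=
  v 0 * v 0 * (G 1 1 * G 2 2 - G 1 2 * G 2 1) - v 0 * v 1 * (G 1 0 * G 2 2 - G 1 2 * G 2 0)
  + v 0 * v 2 * (G 1 0 * G 2 1 - G 1 1 * G 2 0) - v 1 * v 0 * (G 0 1 * G 2 2 - G 0 2 * G 2 1)
  + v 1 * v 1 * (G 0 0 * G 2 2 - G 0 2 * G 2 0) - v 1 * v 2 * (G 0 0 * G 2 1 - G 0 1 * G 2 0)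
  + v 2 * v 0 * (G 0 1 * G 1 2 - G 0 2 * G 1 1) - v 2 * v 1 * (G 0 0 * G 1 2 - G 0 2 * G 1 0)
  + v 2 * v 2 * (G 0 0 * G 1 1 - G 0 1 * G 1 0)

theorem det_rank_one (G : Matrix (Fin 3) (Fin 3) ℝ) (v : Fin 3 → ℝ) (e s : ℝ) :
    (e • G + s • vecMulVec v v).det = e ^ 3 * G.det + e ^ 2 * s * kap G v := by
  rw [Matrix.det_fin_three, Matrix.det_fin_three]
  simp only [Matrix.add_apply, Matrix.smul_apply, vecMulVec_apply, smul_eq_mul, kap]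
  ring

theorem conj_qq (M : Matrix (Fin 2) (Fin 3) ℝ) (v : Fin 2 → ℝ) (e s : ℝ) :
    Mᵀ * (e • (1 : Matrix (Fin 2) (Fin 2) ℝ) + s • vecMulVec v v) * M
      = e • (Mᵀ * M) + s • vecMulVec (Mᵀ.mulVec v) (Mᵀ.mulVec v) := by
  ext i j
  simp [Matrix.mul_apply, mulVec, dotProduct, vecMulVec_apply, Fin.sum_univ_succ, Matrix.one_apply]
  ring


theorem ker_trivial (M₁ M₂ : Matrix (Fin 2) (Fin 3) ℝ) (hn : nrm M₁ M₂ ≠ 0) (x : Fin 3 → ℝ)
    (h1 : M₁.mulVec x = 0) (h2 : M₂.mulVec x = 0) : x = 0 := by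
  have a0 := congrFun h1 0
  have a1 := congrFun h1 1
  have b0 := congrFun h2 0
  have b1 := congrFun h2 1
  simp only [mulVec, dotProduct, Fin.sum_univ_three, Pi.zero_apply] at a0 a1 b0 b1
  have e1 : x 0 * ker3 M₁ 1 = x 1 * ker3 M₁ 0 := by
    simp only [ker3, cons_val_zero, cons_val_one]
    linear_combination (-M₁ 1 2) * a0 + M₁ 0 2 * a1
  have e2 : x 1 * ker3 M₁ 2 = x 2 * ker3 M₁ 1 := by
    simp only [ker3, cons_val]
    linear_combination (-M₁ 1 0) * a0 + M₁ 0 0 * a1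
  have e3 : x 2 * ker3 M₁ 0 = x 0 * ker3 M₁ 2 := by
    simp only [ker3, cons_val]
    linear_combination (-M₁ 1 1) * a0 + M₁ 0 1 * a1
  have f1 : x 0 * ker3 M₂ 1 = x 1 * ker3 M₂ 0 := by
    simp only [ker3, cons_val_zero, cons_val_one]
    linear_combination (-M₂ 1 2) * b0 + M₂ 0 2 * b1
  have f2 : x 1 * ker3 M₂ 2 = x 2 * ker3 M₂ 1 := by
    simp only [ker3, cons_val]
    linear_combination (-M₂ 1 0) * b0 + M₂ 0 0 * b1
  have f3 : x 2 * ker3 M₂ 0 = x 0 * ker3 M₂ 2 := by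
    simp only [ker3, cons_val]
    linear_combination (-M₂ 1 1) * b0 + M₂ 0 1 * b1
  have key : ∀ i k, x i * nrm M₁ M₂ k = 0 := by
    intro i k
    fin_cases i <;> fin_cases k <;> simp only [nrm, cons_val, Fin.zero_eta, Fin.mk_one,
      Fin.reduceFinMk]
    · linear_combination ker3 M₂ 2 * e1 + ker3 M₂ 1 * e3 + ker3 M₁ 0 * f2
    · linear_combination (-ker3 M₂ 0) * e3 + ker3 M₁ 0 * f3
    · linear_combination (-ker3 M₂ 0) * e1 + ker3 M₁ 0 * f1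
    · linear_combination (-ker3 M₂ 1) * e2 + ker3 M₁ 1 * f2
    · linear_combination ker3 M₂ 0 * e2 + ker3 M₂ 2 * e1 + ker3 M₁ 1 * f3
    · linear_combination (-ker3 M₂ 1) * e1 + ker3 M₁ 1 * f1
    · linear_combination (-ker3 M₂ 2) * e2 + ker3 M₁ 2 * f2
    · linear_combination (-ker3 M₂ 2) * e3 + ker3 M₁ 2 * f3
    · linear_combination ker3 M₂ 1 * e3 + ker3 M₂ 0 * e2 + ker3 M₁ 2 * f1
  by_contra hx
  obtain ⟨i, hi⟩ := Function.ne_iff.mp hx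
  obtain ⟨k, hk⟩ := Function.ne_iff.mp hn
  rcases mul_eq_zero.mp (key i k) with h | h
  · exact hi h
  · exact hk h


theorem quad_conj {m : ℕ} (M : Matrix (Fin m) (Fin 3) ℝ) (A : Matrix (Fin m) (Fin m) ℝ)
    (x : Fin 3 → ℝ) :
    x ⬝ᵥ ((Mᵀ * A * M).mulVec x) = (M.mulVec x) ⬝ᵥ (A.mulVec (M.mulVec x)) := by
  rw [← Matrix.mulVec_mulVec, ← Matrix.mulVec_mulVec, Matrix.dotProduct_mulVec x Mᵀ,
    Matrix.vecMul_transpose]

theorem psd_conj {m : ℕ} (M : Matrix (Fin m) (Fin 3) ℝ) {A : Matrix (Fin m) (Fin m) ℝ}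
    (hA : A.PosSemidef) : (Mᵀ * A * M).PosSemidef := by
  have := hA.conjTranspose_mul_mul_same M
  rwa [conjTranspose_eq_transpose_of_trivial] at this

/-- the matrix in the denominator of the gaussian quotient -/
noncomputable def tot (M₁ M₂ : Matrix (Fin 2) (Fin 3) ℝ) (M₃ : Matrix (Fin 1) (Fin 3) ℝ)
    (c₁ c₂ c₃ : ℝ) (A₁ A₂ : Matrix (Fin 2) (Fin 2) ℝ) (A₃ : Matrix (Fin 1) (Fin 1) ℝ) :
    Matrix (Fin 3) (Fin 3) ℝ :=
  c₁ • (M₁ᵀ * A₁ * M₁) + c₂ • (M₂ᵀ * A₂ * M₂) + c₃ • (M₃ᵀ * A₃ * M₃)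

theorem base_posDef (M₁ M₂ : Matrix (Fin 2) (Fin 3) ℝ) {c₁ c₂ : ℝ} (h₁ : 0 < c₁) (h₂ : 0 < c₂)
    {A₁ A₂ : Matrix (Fin 2) (Fin 2) ℝ} (hA₁ : A₁.PosDef) (hA₂ : A₂.PosDef)
    (hn : nrm M₁ M₂ ≠ 0) : (c₁ • (M₁ᵀ * A₁ * M₁) + c₂ • (M₂ᵀ * A₂ * M₂)).PosDef := by
  have p1 := (psd_conj M₁ hA₁.posSemidef).smul h₁.le
  have p2 := (psd_conj M₂ hA₂.posSemidef).smul h₂.le
  refine Matrix.PosDef.of_dotProduct_mulVec_pos (p1.add p2).isHermitian (fun {x} hx => ?_)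
  rw [star_trivial, Matrix.add_mulVec, dotProduct_add, Matrix.smul_mulVec, Matrix.smul_mulVec,
    dotProduct_smul, dotProduct_smul, smul_eq_mul, smul_eq_mul, quad_conj, quad_conj]
  have n1 : 0 ≤ (M₁.mulVec x) ⬝ᵥ (A₁.mulVec (M₁.mulVec x)) := by
    simpa using hA₁.posSemidef.dotProduct_mulVec_nonneg (M₁.mulVec x)
  have n2 : 0 ≤ (M₂.mulVec x) ⬝ᵥ (A₂.mulVec (M₂.mulVec x)) := by
    simpa using hA₂.posSemidef.dotProduct_mulVec_nonneg (M₂.mulVec x)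
  by_cases hx1 : M₁.mulVec x = 0
  · have hx2 : M₂.mulVec x ≠ 0 := fun h => hx (ker_trivial M₁ M₂ hn x hx1 h)
    have := hA₂.dotProduct_mulVec_pos hx2
    rw [star_trivial] at this
    have := mul_pos h₂ this
    have := mul_nonneg h₁.le n1
    linarith
  · have := hA₁.dotProduct_mulVec_pos hx1
    rw [star_trivial] at this
    have := mul_pos h₁ this
    have := mul_nonneg h₂.le n2
    linarith

theorem tot_posDef (M₁ M₂ : Matrix (Fin 2) (Fin 3) ℝ) (M₃ : Matrix (Fin 1) (Fin 3) ℝ)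
    {c₁ c₂ c₃ : ℝ} (h₁ : 0 < c₁) (h₂ : 0 < c₂) (h₃ : 0 < c₃)
    {A₁ A₂ : Matrix (Fin 2) (Fin 2) ℝ} {A₃ : Matrix (Fin 1) (Fin 1) ℝ}
    (hA₁ : A₁.PosDef) (hA₂ : A₂.PosDef) (hA₃ : A₃.PosDef)
    (hn : nrm M₁ M₂ ≠ 0) : (tot M₁ M₂ M₃ c₁ c₂ c₃ A₁ A₂ A₃).PosDef :=
  (base_posDef M₁ M₂ h₁ h₂ hA₁ hA₂ hn).add_posSemidef
    ((psd_conj M₃ hA₃.posSemidef).smul h₃.le)

/-- the gaussian quotient for three maps -/
noncomputable def quo (M₁ M₂ : Matrix (Fin 2) (Fin 3) ℝ) (M₃ : Matrix (Fin 1) (Fin 3) ℝ)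
    (c₁ c₂ c₃ : ℝ) (A₁ A₂ : Matrix (Fin 2) (Fin 2) ℝ) (A₃ : Matrix (Fin 1) (Fin 1) ℝ) : ℝ :=
  Real.sqrt ((A₁.det ^ c₁ * A₂.det ^ c₂ * A₃.det ^ c₃) / (tot M₁ M₂ M₃ c₁ c₂ c₃ A₁ A₂ A₃).det)

/-- the test family shows that the exponent of the third map is at least one -/
theorem one_le_c3 (M₁ M₂ : Matrix (Fin 2) (Fin 3) ℝ) (M₃ : Matrix (Fin 1) (Fin 3) ℝ)
    {c₁ c₂ c₃ : ℝ} (h₁ : 0 < c₁) (h₂ : 0 < c₂) (h₃ : 0 < c₃) (hn : nrm M₁ M₂ ≠ 0) (R : ℝ)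
    (hR : ∀ (A₁ A₂ : Matrix (Fin 2) (Fin 2) ℝ) (A₃ : Matrix (Fin 1) (Fin 1) ℝ),
      A₁.PosDef → A₂.PosDef → A₃.PosDef → quo M₁ M₂ M₃ c₁ c₂ c₃ A₁ A₂ A₃ ≤ R) : 1 ≤ c₃ := by
  by_contra hc
  push Not at hc
  set q₁ := q M₁ M₂ with hq₁
  set q₂ := q M₂ M₁ with hq₂
  have hQ : ∀ M M' : Matrix (Fin 2) (Fin 3) ℝ, nrm M M' ≠ 0 →
      0 < q M M' 0 ^ 2 + q M M' 1 ^ 2 := by
    intro M M' h
    by_contra hneg
    push Not at hneg
    have z0 : q M M' 0 = 0 := by nlinarith [sq_nonneg (q M M' 0), sq_nonneg (q M M' 1)]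
    have z1 : q M M' 1 = 0 := by nlinarith [sq_nonneg (q M M' 0), sq_nonneg (q M M' 1)]
    apply h
    rw [← tr_q]
    have : q M M' = 0 := by
      ext i; fin_cases i
      · exact z0
      · exact z1
    rw [this, Matrix.mulVec_zero]
  have hQ₁ := hQ M₁ M₂ hn
  have hn' : nrm M₂ M₁ ≠ 0 := by
    rw [nrm_swap]; exact neg_ne_zero.mpr hn
  have hQ₂ := hQ M₂ M₁ hn'
  set G : Matrix (Fin 3) (Fin 3) ℝ := c₁ • (M₁ᵀ * M₁) + c₂ • (M₂ᵀ * M₂) + c₃ • (M₃ᵀ * M₃) with hG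
  set Cc : ℝ := |G.det| + (c₁ + c₂) * |kap G (nrm M₁ M₂)| with hCc
  set K : ℝ := (q₁ 0 ^ 2 + q₁ 1 ^ 2) ^ c₁ * (q₂ 0 ^ 2 + q₂ 1 ^ 2) ^ c₂ with hK
  have hKpos : 0 < K := mul_pos (Real.rpow_pos_of_pos hQ₁ _) (Real.rpow_pos_of_pos hQ₂ _)
  have main : ∀ t : ℝ, 1 ≤ t → K * t ^ (1 - c₃) ≤ R ^ 2 * Cc := by
    intro t ht
    have ht0 : 0 < t := by linarith
    set A₁ : Matrix (Fin 2) (Fin 2) ℝ := t⁻¹ • 1 + t • vecMulVec q₁ q₁ with hA₁
    set A₂ : Matrix (Fin 2) (Fin 2) ℝ := t⁻¹ • 1 + t • vecMulVec q₂ q₂ with hA₂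
    set A₃ : Matrix (Fin 1) (Fin 1) ℝ := t⁻¹ • 1 with hA₃
    have pA₁ : A₁.PosDef := posDef_qq q₁ t ht0
    have pA₂ : A₂.PosDef := posDef_qq q₂ t ht0
    have pA₃ : A₃.PosDef := Matrix.PosDef.smul Matrix.PosDef.one (inv_pos.mpr ht0)
    have hb := hR A₁ A₂ A₃ pA₁ pA₂ pA₃
    unfold quo at hb
    have htot : tot M₁ M₂ M₃ c₁ c₂ c₃ A₁ A₂ A₃
        = t⁻¹ • G + (t * (c₁ + c₂)) • vecMulVec (nrm M₁ M₂) (nrm M₁ M₂) := by
      unfold tot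
      rw [hA₁, hA₂, conj_qq, conj_qq, hq₁, hq₂, tr_q, tr_q, nrm_swap M₁ M₂, hA₃, hG]
      ext i j
      simp [vecMulVec_apply]
      ring
    have hdet : (tot M₁ M₂ M₃ c₁ c₂ c₃ A₁ A₂ A₃).det
        = t⁻¹ ^ 3 * G.det + t⁻¹ ^ 2 * (t * (c₁ + c₂)) * kap G (nrm M₁ M₂) := by
      rw [htot, det_rank_one]
    have hpos := (tot_posDef M₁ M₂ M₃ h₁ h₂ h₃ pA₁ pA₂ pA₃ hn).det_pos
    have hti : t⁻¹ ≤ 1 := inv_le_one_of_one_le₀ ht
    have hti0 : 0 < t⁻¹ := inv_pos.mpr ht0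
    have hle : (tot M₁ M₂ M₃ c₁ c₂ c₃ A₁ A₂ A₃).det ≤ t⁻¹ * Cc := by
      rw [hdet]
      have e1 : t⁻¹ ^ 3 * G.det ≤ t⁻¹ * |G.det| := by
        calc t⁻¹ ^ 3 * G.det ≤ t⁻¹ ^ 3 * |G.det| := by gcongr; exact le_abs_self _
          _ ≤ t⁻¹ ^ 1 * |G.det| := by
            gcongr ?_ * |G.det|
            exact pow_le_pow_of_le_one hti0.le hti (by norm_num)
          _ = t⁻¹ * |G.det| := by rw [pow_one]
      have e2 : t⁻¹ ^ 2 * (t * (c₁ + c₂)) * kap G (nrm M₁ M₂)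
          ≤ t⁻¹ * ((c₁ + c₂) * |kap G (nrm M₁ M₂)|) := by
        have : t⁻¹ ^ 2 * (t * (c₁ + c₂)) * kap G (nrm M₁ M₂)
            = t⁻¹ * ((c₁ + c₂) * kap G (nrm M₁ M₂)) := by
          field_simp
        rw [this]
        gcongr
        exact le_abs_self _
      rw [hCc]
      linarith [mul_add t⁻¹ |G.det| ((c₁ + c₂) * |kap G (nrm M₁ M₂)|)]
    have hd3 : A₃.det = t⁻¹ := by
      rw [hA₃]; simp
    have hnum : K * t⁻¹ ^ c₃ ≤ A₁.det ^ c₁ * A₂.det ^ c₂ * A₃.det ^ c₃ := by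
      rw [hd3, hA₁, hA₂, hK, hq₁, hq₂, det_qq _ _ _ ht0.ne', det_qq _ _ _ ht0.ne']
      have s0 := sq_nonneg t⁻¹
      refine mul_le_mul_of_nonneg_right (mul_le_mul
        (Real.rpow_le_rpow hQ₁.le (by linarith) h₁.le)
        (Real.rpow_le_rpow hQ₂.le (by linarith) h₂.le) (Real.rpow_nonneg hQ₂.le _)
        (Real.rpow_nonneg (by linarith) _)) (Real.rpow_nonneg hti0.le _)
    have hb2 := (Real.sqrt_le_iff.mp hb).2
    rw [div_le_iff₀ hpos] at hb2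
    have hfin : K * t⁻¹ ^ c₃ ≤ R ^ 2 * (t⁻¹ * Cc) :=
      hnum.trans (hb2.trans (mul_le_mul_of_nonneg_left hle (sq_nonneg R)))
    have hpow : t ^ (1 - c₃) = t * t⁻¹ ^ c₃ := by
      rw [Real.rpow_sub ht0, Real.rpow_one, Real.inv_rpow ht0.le, div_eq_mul_inv]
    rw [hpow]
    calc K * (t * t⁻¹ ^ c₃) = t * (K * t⁻¹ ^ c₃) := by ring
      _ ≤ t * (R ^ 2 * (t⁻¹ * Cc)) := by gcongr
      _ = R ^ 2 * Cc := by field_simp
  have hlim := tendsto_rpow_atTop (y := 1 - c₃) (by linarith)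
  obtain ⟨t, ht1, ht2⟩ := ((hlim.eventually_gt_atTop (R ^ 2 * Cc / K)).and
    (Filter.eventually_ge_atTop 1)).exists
  have := main t ht2
  rw [div_lt_iff₀ hKpos] at ht1
  linarith


/-- No maximizer exists for three maps `ℝ³ → ℝ², ℝ², ℝ` with distinct kernels of the first two. -/
theorem no_max (M₁ M₂ : Matrix (Fin 2) (Fin 3) ℝ) (M₃ : Matrix (Fin 1) (Fin 3) ℝ)
    {c₁ c₂ c₃ : ℝ} (h₁ : 0 < c₁) (h₂ : 0 < c₂) (h₃ : 0 < c₃) (hn : nrm M₁ M₂ ≠ 0)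
    (A₁ A₂ : Matrix (Fin 2) (Fin 2) ℝ) (A₃ : Matrix (Fin 1) (Fin 1) ℝ)
    (p₁ : A₁.PosDef) (p₂ : A₂.PosDef) (p₃ : A₃.PosDef)
    (hmax : ∀ (A₁' A₂' : Matrix (Fin 2) (Fin 2) ℝ) (A₃' : Matrix (Fin 1) (Fin 1) ℝ),
      A₁'.PosDef → A₂'.PosDef → A₃'.PosDef →
      quo M₁ M₂ M₃ c₁ c₂ c₃ A₁' A₂' A₃' ≤ quo M₁ M₂ M₃ c₁ c₂ c₃ A₁ A₂ A₃) : False := by
  have hc := one_le_c3 M₁ M₂ M₃ h₁ h₂ h₃ hn _ hmax
  set N : Matrix (Fin 3) (Fin 3) ℝ := c₁ • (M₁ᵀ * A₁ * M₁) + c₂ • (M₂ᵀ * A₂ * M₂) with hN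
  have hNpd : N.PosDef := base_posDef M₁ M₂ h₁ h₂ p₁ p₂ hn
  have hN0 := hNpd.det_pos
  set a : ℝ := A₃ 0 0 with ha
  have ha0 : 0 < a := by
    have := p₃.det_pos
    rwa [Matrix.det_fin_one] at this
  set v : Fin 3 → ℝ := M₃ 0 with hv
  have htot : ∀ s : ℝ, tot M₁ M₂ M₃ c₁ c₂ c₃ A₁ A₂ (s • 1)
      = (1:ℝ) • N + (c₃ * s) • vecMulVec v v := by
    intro s
    unfold tot
    rw [hN, hv]
    ext i j
    simp [vecMulVec_apply, Matrix.mul_apply]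
    ring
  have hdet : ∀ s : ℝ, (tot M₁ M₂ M₃ c₁ c₂ c₃ A₁ A₂ (s • 1)).det
      = N.det + (c₃ * s) * kap N v := by
    intro s
    rw [htot, det_rank_one]
    ring
  have hpd : ∀ s : ℝ, 0 < s → (s • (1 : Matrix (Fin 1) (Fin 1) ℝ)).PosDef := fun s hs =>
    Matrix.PosDef.smul Matrix.PosDef.one hs
  have hpos : ∀ s : ℝ, 0 < s → 0 < N.det + (c₃ * s) * kap N v := by
    intro s hs
    rw [← hdet]
    exact (tot_posDef M₁ M₂ M₃ h₁ h₂ h₃ p₁ p₂ (hpd s hs) hn).det_pos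
  have hkap : 0 ≤ kap N v := by
    by_contra hk
    push Not at hk
    have h := hpos (N.det / (c₃ * (-kap N v))) (div_pos hN0 (mul_pos h₃ (by linarith)))
    have hne : kap N v ≠ 0 := hk.ne
    have : c₃ * (N.det / (c₃ * (-kap N v))) * kap N v = - N.det := by
      field_simp
    rw [this] at h
    linarith
  have hA₃ : A₃ = a • 1 := by
    ext i j
    have hi : i = 0 := Subsingleton.elim _ _
    have hj : j = 0 := Subsingleton.elim _ _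
    subst hi; subst hj
    simp [ha]
  have hm := hmax A₁ A₂ ((2 * a) • 1) p₁ p₂ (hpd _ (by linarith))
  rw [hA₃] at hm
  unfold quo at hm
  rw [hdet, hdet] at hm
  have hd1 : ∀ s : ℝ, (s • (1 : Matrix (Fin 1) (Fin 1) ℝ)).det = s := by
    intro s; simp
  rw [hd1, hd1] at hm
  have hp2 := hpos (2 * a) (by linarith)
  have hp1 := hpos a ha0
  set E : ℝ := A₁.det ^ c₁ * A₂.det ^ c₂ with hE
  have hE0 : 0 < E := mul_pos (Real.rpow_pos_of_pos p₁.det_pos _)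
    (Real.rpow_pos_of_pos p₂.det_pos _)
  have hac : 0 < a ^ c₃ := Real.rpow_pos_of_pos ha0 _
  have hnn : 0 ≤ E * a ^ c₃ / (N.det + c₃ * a * kap N v) :=
    div_nonneg (mul_pos hE0 hac).le hp1.le
  have hm2 := (Real.sqrt_le_sqrt_iff hnn).mp hm
  rw [div_le_div_iff₀ hp2 hp1, Real.mul_rpow (by norm_num) ha0.le] at hm2
  have h2c : (2:ℝ) ≤ 2 ^ c₃ := by
    calc (2:ℝ) = 2 ^ (1:ℝ) := by rw [Real.rpow_one]
      _ ≤ 2 ^ c₃ := Real.rpow_le_rpow_of_exponent_le (by norm_num) hc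
  have hk2 : 0 ≤ c₃ * a * kap N v := mul_nonneg (mul_pos h₃ ha0).le hkap
  have hEa : 0 < E * a ^ c₃ := mul_pos hE0 hac
  have h3 : E * a ^ c₃ * (2 * (N.det + c₃ * a * kap N v))
      ≤ E * (2 ^ c₃ * a ^ c₃) * (N.det + c₃ * a * kap N v) := by
    calc E * a ^ c₃ * (2 * (N.det + c₃ * a * kap N v))
        = (E * a ^ c₃ * (N.det + c₃ * a * kap N v)) * 2 := by ring
      _ ≤ (E * a ^ c₃ * (N.det + c₃ * a * kap N v)) * 2 ^ c₃ := by gcongr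
      _ = _ := by ring
  have h4 := (h3.trans hm2)
  have h5 := le_of_mul_le_mul_left h4 hEa
  nlinarith


/-! ### The datum -/

/-- the dimensions `2, 2, 1` -/
def nn : Fin 3 → ℕ
  | 0 => 2
  | 1 => 2
  | 2 => 1

/-- the maps `(x,y,t) ↦ (x,y)`, `(x,y,t) ↦ (x+t,y)`, `(x,y,t) ↦ t` -/
def BB : ∀ i : Fin 3, Matrix (Fin (nn i)) (Fin 3) ℝ
  | 0 => !![1, 0, 0; 0, 1, 0]
  | 1 => !![1, 0, 1; 0, 1, 0]
  | 2 => !![0, 0, 1]

/-- the exponents `1/2, 1/2, 1` -/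
noncomputable def cc : Fin 3 → ℝ
  | 0 => 1 / 2
  | 1 => 1 / 2
  | 2 => 1

theorem isDatum : IsDatum BB cc := by
  refine ⟨fun i => ?_, fun i => ?_⟩
  · fin_cases i
    · intro y
      refine ⟨![y (0 : Fin 2), y (1 : Fin 2), 0], ?_⟩
      ext j
      change (!![1, 0, 0; 0, 1, 0] : Matrix (Fin 2) (Fin 3) ℝ).mulVec _ _ = _
      change Fin 2 at j
      fin_cases j <;> simp [mulVec, dotProduct, Fin.sum_univ_three]
    · intro y
      refine ⟨![y (0 : Fin 2), y (1 : Fin 2), 0], ?_⟩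
      ext j
      change (!![1, 0, 1; 0, 1, 0] : Matrix (Fin 2) (Fin 3) ℝ).mulVec _ _ = _
      change Fin 2 at j
      fin_cases j <;> simp [mulVec, dotProduct, Fin.sum_univ_three]
    · intro y
      refine ⟨![0, 0, y (0 : Fin 1)], ?_⟩
      ext j
      change (!![0, 0, 1] : Matrix (Fin 1) (Fin 3) ℝ).mulVec _ _ = _
      change Fin 1 at j
      have hj : j = (0 : Fin 1) := Subsingleton.elim _ _
      subst hj
      simp [mulVec, dotProduct, Fin.sum_univ_three]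
  · fin_cases i <;> norm_num [cc]

theorem holder_shift (f g : (Fin 2 → ℝ) → ℝ) (hf : Integrable f) (hg : Integrable g)
    (τ : Fin 2 → ℝ) :
    ∫⁻ y, (ENNReal.ofReal (f y)) ^ (1 / 2 : ℝ) * (ENNReal.ofReal (g (y + τ))) ^ (1 / 2 : ℝ)
      ≤ (∫⁻ y, ENNReal.ofReal (f y)) ^ (1 / 2 : ℝ) * (∫⁻ y, ENNReal.ofReal (g y)) ^ (1 / 2 : ℝ) := by
  have mf : AEMeasurable (fun y => (ENNReal.ofReal (f y)) ^ (1 / 2 : ℝ)) volume :=
    (hf.aestronglyMeasurable.aemeasurable.ennreal_ofReal).pow_const _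
  have mg : AEMeasurable (fun y => (ENNReal.ofReal (g (y + τ))) ^ (1 / 2 : ℝ)) volume := by
    have h := (hg.aestronglyMeasurable.aemeasurable.ennreal_ofReal).comp_quasiMeasurePreserving
      (measurePreserving_add_right volume τ).quasiMeasurePreserving
    exact h.pow_const _
  have h := ENNReal.lintegral_mul_le_Lp_mul_Lq volume Real.HolderConjugate.two_two mf mg
  simp only [Pi.mul_apply, ← ENNReal.rpow_mul] at h
  norm_num at h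
  norm_num
  rwa [lintegral_add_right_eq_self (fun y => ENNReal.ofReal (g y)) τ] at h

theorem core_ineq (F0 F1 : (Fin 2 → ℝ) → ℝ) (F2 : (Fin 1 → ℝ) → ℝ)
    (hf0 : Integrable F0) (hf1 : Integrable F1) (hf2 : Integrable F2)
    (n0 : ∀ y, 0 ≤ F0 y) (n1 : ∀ y, 0 ≤ F1 y) (n2 : ∀ y, 0 ≤ F2 y) :
    ∫⁻ x : Fin 3 → ℝ, ENNReal.ofReal
      ((F0 ((!![1, 0, 0; 0, 1, 0] : Matrix (Fin 2) (Fin 3) ℝ).mulVec x)) ^ (1 / 2 : ℝ)
        * (F1 ((!![1, 0, 1; 0, 1, 0] : Matrix (Fin 2) (Fin 3) ℝ).mulVec x)) ^ (1 / 2 : ℝ)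
        * (F2 ((!![0, 0, 1] : Matrix (Fin 1) (Fin 3) ℝ).mulVec x)) ^ (1 : ℝ))
      ≤ ENNReal.ofReal (1 * ((∫ y, F0 y) ^ (1 / 2 : ℝ) * (∫ y, F1 y) ^ (1 / 2 : ℝ)
        * (∫ y, F2 y) ^ (1 : ℝ))) := by
  have b0 : ∀ x : Fin 3 → ℝ, (!![1, 0, 0; 0, 1, 0] : Matrix (Fin 2) (Fin 3) ℝ).mulVec x
      = (fun j : Fin 2 => x ((2 : Fin 3).succAbove j)) := by
    intro x
    ext j
    fin_cases j <;> simp [mulVec, dotProduct, Fin.sum_univ_three, Fin.succAbove] 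
  have b1 : ∀ x : Fin 3 → ℝ, (!![1, 0, 1; 0, 1, 0] : Matrix (Fin 2) (Fin 3) ℝ).mulVec x
      = (fun j : Fin 2 => x ((2 : Fin 3).succAbove j)) + ![x 2, 0] := by
    intro x
    ext j
    fin_cases j <;> simp [mulVec, dotProduct, Fin.sum_univ_three, Fin.succAbove]
  have b2 : ∀ x : Fin 3 → ℝ, (!![0, 0, 1] : Matrix (Fin 1) (Fin 3) ℝ).mulVec x
      = (fun _ : Fin 1 => x 2) := by
    intro x
    ext j
    fin_cases j
    simp [mulVec, dotProduct, Fin.sum_univ_three]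
  simp only [b0, b1, b2, Real.rpow_one]
  have hmp := volume_preserving_piFinSuccAbove (fun _ : Fin 3 => ℝ) 2
  set Φ : ℝ × (Fin 2 → ℝ) → ENNReal := fun p =>
    ((ENNReal.ofReal (F0 p.2)) ^ (1/2 : ℝ) * (ENNReal.ofReal (F1 (p.2 + ![p.1, 0]))) ^ (1/2 : ℝ))
      * ENNReal.ofReal (F2 (fun _ => p.1)) with hΦ
  have h1 : ∫⁻ x : Fin 3 → ℝ, ENNReal.ofReal
      ((F0 (fun j => x ((2 : Fin 3).succAbove j))) ^ (1/2 : ℝ)
        * (F1 ((fun j => x ((2 : Fin 3).succAbove j)) + ![x 2, 0])) ^ (1/2 : ℝ)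
        * (F2 (fun _ => x 2))) = ∫⁻ p : ℝ × (Fin 2 → ℝ), Φ p := by
    rw [← hmp.lintegral_comp_emb (MeasurableEquiv.piFinSuccAbove (fun _ : Fin 3 => ℝ) 2).measurableEmbedding]
    refine lintegral_congr (fun x => ?_)
    rw [ENNReal.ofReal_mul (mul_nonneg (Real.rpow_nonneg (n0 _) _) (Real.rpow_nonneg (n1 _) _)),
      ENNReal.ofReal_mul (Real.rpow_nonneg (n0 _) _), hΦ,
      ← ENNReal.ofReal_rpow_of_nonneg (n0 _) (by norm_num),
      ← ENNReal.ofReal_rpow_of_nonneg (n1 _) (by norm_num)]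
    rfl
  rw [h1, Measure.volume_eq_prod]
  refine (lintegral_prod_le _).trans ?_
  have h2 : ∀ t : ℝ, ∫⁻ y : Fin 2 → ℝ, Φ (t, y)
      ≤ ((∫⁻ y, ENNReal.ofReal (F0 y)) ^ (1 / 2 : ℝ) * (∫⁻ y, ENNReal.ofReal (F1 y)) ^ (1 / 2 : ℝ))
        * ENNReal.ofReal (F2 (fun _ => t)) := by
    intro t
    simp only [hΦ]
    rw [lintegral_mul_const' _ _ ENNReal.ofReal_ne_top]
    gcongr
    exact holder_shift F0 F1 hf0 hf1 _
  refine (lintegral_mono h2).trans ?_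
  have i0 := ofReal_integral_eq_lintegral_ofReal hf0 (Filter.Eventually.of_forall n0)
  have i1 := ofReal_integral_eq_lintegral_ofReal hf1 (Filter.Eventually.of_forall n1)
  have i2 := ofReal_integral_eq_lintegral_ofReal hf2 (Filter.Eventually.of_forall n2)
  rw [← i0, ← i1]
  rw [lintegral_const_mul' _ _ (ENNReal.mul_ne_top
    (ENNReal.rpow_ne_top_of_nonneg (by norm_num) ENNReal.ofReal_ne_top)
    (ENNReal.rpow_ne_top_of_nonneg (by norm_num) ENNReal.ofReal_ne_top))]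
  have hu := volume_preserving_funUnique (Fin 1) ℝ
  have h3 : ∫⁻ t : ℝ, ENNReal.ofReal (F2 (fun _ => t)) = ∫⁻ y, ENNReal.ofReal (F2 y) := by
    rw [← hu.lintegral_comp_emb (MeasurableEquiv.funUnique (Fin 1) ℝ).measurableEmbedding]
    refine lintegral_congr (fun y => ?_)
    congr 2
    ext j
    have : j = 0 := Subsingleton.elim _ _
    subst this
    rfl
  have e0 : 0 ≤ ∫ y, F0 y := integral_nonneg n0
  have e1 : 0 ≤ ∫ y, F1 y := integral_nonneg n1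
  rw [h3, ← i2, one_mul, ENNReal.ofReal_mul (mul_nonneg (Real.rpow_nonneg e0 _)
    (Real.rpow_nonneg e1 _)), ENNReal.ofReal_mul (Real.rpow_nonneg e0 _),
    ← ENNReal.ofReal_rpow_of_nonneg e0 (by norm_num),
    ← ENNReal.ofReal_rpow_of_nonneg e1 (by norm_num)]

theorem feasible : Feasible BB cc := by
  refine ⟨isDatum, 1, ?_⟩
  intro f hf hnn
  have h := core_ineq (f 0) (f 1) (f 2) (hf 0) (hf 1) (hf 2) (hnn 0) (hnn 1) (hnn 2)
  simp only [Fin.prod_univ_three]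
  exact h

/-- entrywise closeness to the datum keeps the first two kernels distinct -/
theorem nrm_ne_zero (M₁ M₂ : Matrix (Fin 2) (Fin 3) ℝ)
    (h₁ : ∀ a b, |(!![1, 0, 0; 0, 1, 0] : Matrix (Fin 2) (Fin 3) ℝ) a b - M₁ a b| < 1 / 10)
    (h₂ : ∀ a b, |(!![1, 0, 1; 0, 1, 0] : Matrix (Fin 2) (Fin 3) ℝ) a b - M₂ a b| < 1 / 10) :
    nrm M₁ M₂ ≠ 0 := by
  intro h
  have h1 := congrFun h 1
  have a00 := abs_lt.mp (h₁ 0 0)
  have a01 := abs_lt.mp (h₁ 0 1)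
  have a02 := abs_lt.mp (h₁ 0 2)
  have a10 := abs_lt.mp (h₁ 1 0)
  have a11 := abs_lt.mp (h₁ 1 1)
  have a12 := abs_lt.mp (h₁ 1 2)
  have b00 := abs_lt.mp (h₂ 0 0)
  have b01 := abs_lt.mp (h₂ 0 1)
  have b02 := abs_lt.mp (h₂ 0 2)
  have b10 := abs_lt.mp (h₂ 1 0)
  have b11 := abs_lt.mp (h₂ 1 1)
  have b12 := abs_lt.mp (h₂ 1 2)
  simp at a00 a01 a02 a10 a11 a12 b00 b01 b02 b10 b11 b12
  simp only [nrm, ker3, cons_val_one, cons_val_zero, cons_val, Pi.zero_apply] at h1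
  obtain ⟨a00l, a00r⟩ := a00
  obtain ⟨a01l, a01r⟩ := a01
  obtain ⟨a02l, a02r⟩ := a02
  obtain ⟨a10l, a10r⟩ := a10
  obtain ⟨a11l, a11r⟩ := a11
  obtain ⟨a12l, a12r⟩ := a12
  obtain ⟨b00l, b00r⟩ := b00
  obtain ⟨b01l, b01r⟩ := b01
  obtain ⟨b02l, b02r⟩ := b02
  obtain ⟨b10l, b10r⟩ := b10
  obtain ⟨b11l, b11r⟩ := b11
  obtain ⟨b12l, b12r⟩ := b12
  generalize M₁ 0 0 = x00 at *
  generalize M₁ 0 1 = x01 at *
  generalize M₁ 0 2 = x02 at *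
  generalize M₁ 1 0 = x10 at *
  generalize M₁ 1 1 = x11 at *
  generalize M₁ 1 2 = x12 at *
  generalize M₂ 0 0 = y00 at *
  generalize M₂ 0 1 = y01 at *
  generalize M₂ 0 2 = y02 at *
  generalize M₂ 1 0 = y10 at *
  generalize M₂ 1 1 = y11 at *
  generalize M₂ 1 2 = y12 at *
  have u2 : 0.8 < x00 * x11 - x01 * x10 := by
    have e1 : 0.81 < x00 * x11 := by nlinarith
    have e2 : |x01 * x10| ≤ 0.1 * 0.1 := by
      rw [abs_mul]
      exact mul_le_mul (abs_le.mpr ⟨by linarith, by linarith⟩)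
        (abs_le.mpr ⟨by linarith, by linarith⟩) (abs_nonneg _) (by norm_num)
    have := abs_le.mp e2
    linarith
  have u0 : |x01 * x12 - x02 * x11| ≤ 0.12 := by
    have e1 : |x01 * x12| ≤ 0.1 * 0.1 := by
      rw [abs_mul]
      exact mul_le_mul (abs_le.mpr ⟨by linarith, by linarith⟩)
        (abs_le.mpr ⟨by linarith, by linarith⟩) (abs_nonneg _) (by norm_num)
    have e2 : |x02 * x11| ≤ 0.1 * 1.1 := by
      rw [abs_mul]
      exact mul_le_mul (abs_le.mpr ⟨by linarith, by linarith⟩)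
        (abs_le.mpr ⟨by linarith, by linarith⟩) (abs_nonneg _) (by norm_num)
    have := abs_le.mp e1
    have := abs_le.mp e2
    rw [abs_le]
    constructor <;> linarith
  have v0 : y01 * y12 - y02 * y11 < - 0.8 := by
    have e1 : 0.81 < y02 * y11 := by nlinarith
    have e2 : |y01 * y12| ≤ 0.1 * 0.1 := by
      rw [abs_mul]
      exact mul_le_mul (abs_le.mpr ⟨by linarith, by linarith⟩)
        (abs_le.mpr ⟨by linarith, by linarith⟩) (abs_nonneg _) (by norm_num)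
    have := abs_le.mp e2
    linarith
  have v2 : |y00 * y11 - y01 * y10| ≤ 1.22 := by
    have e1 : |y00 * y11| ≤ 1.1 * 1.1 := by
      rw [abs_mul]
      exact mul_le_mul (abs_le.mpr ⟨by linarith, by linarith⟩)
        (abs_le.mpr ⟨by linarith, by linarith⟩) (abs_nonneg _) (by norm_num)
    have e2 : |y01 * y10| ≤ 0.1 * 0.1 := by
      rw [abs_mul]
      exact mul_le_mul (abs_le.mpr ⟨by linarith, by linarith⟩)
        (abs_le.mpr ⟨by linarith, by linarith⟩) (abs_nonneg _) (by norm_num)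
    have := abs_le.mp e1
    have := abs_le.mp e2
    rw [abs_le]
    constructor <;> linarith
  have w : |(x01 * x12 - x02 * x11) * (y00 * y11 - y01 * y10)| ≤ 0.12 * 1.22 := by
    rw [abs_mul]
    exact mul_le_mul u0 v2 (abs_nonneg _) (by norm_num)
  have w' := abs_le.mp w
  nlinarith

/-- **Gaussian-extremizable Brascamp-Lieb data are not dense in the feasible data.** -/
theorem result : ∃ (k d : ℕ) (n : Fin k → ℕ) (B : ∀ i, Matrix (Fin (n i)) (Fin d) ℝ)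
    (c : Fin k → ℝ), 1 ≤ k ∧ 1 ≤ d ∧ (∀ i, 1 ≤ n i) ∧ Feasible B c ∧
    ∃ ε > 0, ∀ (B' : ∀ i, Matrix (Fin (n i)) (Fin d) ℝ) (c' : Fin k → ℝ),
      IsDatum B' c' → (∀ i a b, |B i a b - B' i a b| < ε) → (∀ i, |c i - c' i| < ε) →
      ¬ GaussExtremizable B' c' := by
  refine ⟨3, 3, nn, BB, cc, by norm_num, by norm_num, ?_, feasible, 1 / 10, by norm_num, ?_⟩
  · intro i
    fin_cases i <;> decide
  · intro B' c' hd hB _ ⟨A, hA, _, hmax⟩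
    have hn : nrm (B' 0) (B' 1) ≠ 0 := nrm_ne_zero (B' 0) (B' 1) (hB 0) (hB 1)
    refine no_max (B' 0) (B' 1) (B' 2) (hd.2 0) (hd.2 1) (hd.2 2) hn (A 0) (A 1) (A 2)
      (hA 0) (hA 1) (hA 2) ?_
    intro A₁ A₂ A₃ p₁ p₂ p₃
    let A' : ∀ i : Fin 3, Matrix (Fin (nn i)) (Fin (nn i)) ℝ := fun i =>
      match i with
      | 0 => A₁
      | 1 => A₂
      | 2 => A₃
    have hA' : ∀ i, (A' i).PosDef := by
      intro i
      fin_cases i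
      · exact p₁
      · exact p₂
      · exact p₃
    have h := hmax A' hA'
    unfold gaussQuotient at h
    rw [Fin.prod_univ_three, Fin.prod_univ_three, Fin.sum_univ_three, Fin.sum_univ_three] at h
    exact h

end Pool.Agent.Results.MP_b8a264_an.NotDense
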